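import Mathlib

/-!
# KR, piece G: an analytic function whose conjugate is locally analytic is constant
-/

set_option autoImplicit false

namespace Pool.Agent.Helper23.KU

open Filter Topology Metric Set

theorem conj_const {I x y : ℂ → ℂ} (hI : DifferentiableOn ℂ I (ball 0 1))
    (hI0 : ∃ z ∈ ball (0 : ℂ) 1, I z ≠ 0) (hx : DifferentiableOn ℂ x (ball 0 1))
    (hy : DifferentiableOn ℂ y (ball 0 1))
    (h : ∀ z ∈ ball (0 : ℂ) 1, x z = I z * (starRingEnd ℂ) (y z)) :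
    ∃ κ : ℂ, ∀ z ∈ ball (0 : ℂ) 1, y z = κ := by
  obtain ⟨z₀, hz₀, hIz⟩ := hI0
  -- a small ball on which `I` does not vanish
  have hcont : ContinuousAt I z₀ :=
    (hI.differentiableAt (isOpen_ball.mem_nhds hz₀)).continuousAt
  obtain ⟨ρ, hρ, hρI⟩ : ∃ ρ > 0, ∀ z ∈ ball z₀ ρ, I z ≠ 0 ∧ z ∈ ball (0 : ℂ) 1 := by
    have h1 : ∀ᶠ z in 𝓝 z₀, I z ≠ 0 ∧ z ∈ ball (0 : ℂ) 1 :=
      (hcont.eventually_ne hIz).and (isOpen_ball.mem_nhds hz₀)
    obtain ⟨ρ, hρ, h2⟩ := Metric.eventually_nhds_iff_ball.1 h1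
    exact ⟨ρ, hρ, h2⟩
  have hsub : ball z₀ ρ ⊆ ball (0 : ℂ) 1 := fun z hz => (hρI z hz).2
  have hconn : IsConnected (ball z₀ ρ) :=
    ⟨⟨z₀, mem_ball_self hρ⟩, (convex_ball z₀ ρ).isPreconnected⟩
  -- the conjugate of `y` is analytic there
  have hq : DifferentiableOn ℂ (fun z => x z / I z) (ball z₀ ρ) :=
    (hx.mono hsub).div (hI.mono hsub) fun z hz => (hρI z hz).1
  have hconj : ∀ z ∈ ball z₀ ρ, x z / I z = (starRingEnd ℂ) (y z) := by
    intro z hz
    rw [h z (hsub hz), mul_div_cancel_left₀ _ (hρI z hz).1]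
  have hy' := hy.mono hsub
  obtain ⟨a, ha⟩ := AnalyticOnNhd.eq_const_of_im_eq_const (c₀ := 0)
    ((hy'.add hq).analyticOnNhd isOpen_ball) (fun z hz => by
      show (y z + x z / I z).im = 0
      rw [hconj z hz]
      simp) isOpen_ball hconn
  obtain ⟨b, hb⟩ := AnalyticOnNhd.eq_const_of_re_eq_const (c₀ := 0)
    ((hy'.sub hq).analyticOnNhd isOpen_ball) (fun z hz => by
      show (y z - x z / I z).re = 0
      rw [hconj z hz]
      simp) isOpen_ball hconn
  have hloc : ∀ z ∈ ball z₀ ρ, y z = (a + b) / 2 := by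
    intro z hz
    have e1 : y z + x z / I z = a := ha z hz
    have e2 : y z - x z / I z = b := hb z hz
    rw [← e1, ← e2]
    ring
  refine ⟨(a + b) / 2, fun z hz => ?_⟩
  have hev : y =ᶠ[𝓝 z₀] fun _ => (a + b) / 2 := by
    filter_upwards [ball_mem_nhds z₀ hρ] with z hz
    exact hloc z hz
  exact (hy.analyticOnNhd isOpen_ball).eqOn_of_preconnected_of_eventuallyEq
    analyticOnNhd_const (convex_ball (0 : ℂ) 1).isPreconnected hz₀ hev hz

end Pool.Agent.Helper23.KU
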