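import Pool.Agent.Helper33.KU.Split

/-!
# KR: two second functions whose quotient can be absorbed by the first function
-/

set_option autoImplicit false

namespace Pool.Agent.Helper23.KU

open Filter Topology Metric MeasureTheory Set
open Pool.Agent.Helper23.KB (Sph Dom KF Ext sq)

/-- domination passes to the quotient -/
theorem dom_quot {c F : ℝ} (h0 : 0 < c) {f g₁ g₂ u : ℂ → ℂ}
    (hg₁ : DifferentiableOn ℂ g₁ (ball 0 1)) (hne : ∃ z ∈ ball (0 : ℂ) 1, g₁ z ≠ 0)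
    (hu : DifferentiableOn ℂ u (ball 0 1)) (hg₂ : DifferentiableOn ℂ g₂ (ball 0 1))
    (hD : Dom c F f g₁) (hug : ∀ z ∈ ball (0 : ℂ) 1, u z * g₁ z = f z * g₂ z) :
    Dom c F u g₂ := by
  intro z hz hz1
  have hzb : z ∈ ball (0 : ℂ) 1 := by rwa [mem_ball_zero_iff]
  have hz0 : z ≠ 0 := norm_pos_iff.1 (h0.trans_le hz)
  have key : ∀ y : ℂ, c ≤ ‖y‖ → ‖y‖ < 1 → g₁ y ≠ 0 → ‖u y‖ ≤ F * ‖g₂ y‖ := by
    intro y hy hy1 hgy
    have h1 := hug y (by rwa [mem_ball_zero_iff])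
    have h2 := hD y hy hy1
    have h3 : ‖u y‖ * ‖g₁ y‖ ≤ (F * ‖g₂ y‖) * ‖g₁ y‖ := by
      calc ‖u y‖ * ‖g₁ y‖ = ‖f y‖ * ‖g₂ y‖ := by rw [← norm_mul, h1, norm_mul]
        _ ≤ (F * ‖g₁ y‖) * ‖g₂ y‖ := mul_le_mul_of_nonneg_right h2 (norm_nonneg _)
        _ = _ := by ring
    exact le_of_mul_le_mul_right h3 (norm_pos_iff.2 hgy)
  have hp := out_path hz0
  have hp' : Tendsto (fun t : ℝ => ((1 + t : ℝ) : ℂ) * z) (𝓝[>] (0 : ℝ)) (𝓝 z) :=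
    hp.mono_right nhdsWithin_le_nhds
  have hev : ∀ᶠ t : ℝ in 𝓝[>] (0 : ℝ), ‖u (((1 + t : ℝ) : ℂ) * z)‖ ≤
      F * ‖g₂ (((1 + t : ℝ) : ℂ) * z)‖ := by
    filter_upwards [out_norm hz0, hp.eventually (iso_zeros hg₁ hne hzb),
      hp'.eventually (isOpen_ball.mem_nhds hzb)] with t h1 h2 h3
    exact key _ (hz.trans h1.le) (mem_ball_zero_iff.1 h3) h2
  have cu : ContinuousAt (fun y => ‖u y‖) z :=
    (hu.continuousOn.continuousAt (isOpen_ball.mem_nhds hzb)).norm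
  have cg : ContinuousAt (fun y => F * ‖g₂ y‖) z :=
    (hg₂.continuousOn.continuousAt (isOpen_ball.mem_nhds hzb)).norm.const_mul F
  exact le_of_tendsto_of_tendsto (cu.tendsto.comp hp') (cg.tendsto.comp hp') hev

/-- a function dominated by a function of the Bergman space is in the Bergman space -/
theorem int_of_dom {c t : ℝ} (h1 : c < 1) {u v : ℂ → ℂ} (hu : ContinuousOn u (ball 0 1))
    (hv : IntegrableOn (fun z => ‖v z‖ ^ 2) (ball 0 1)) (h : Dom c t u v) :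
    IntegrableOn (fun z => ‖u z‖ ^ 2) (ball 0 1) := by
  have hK : IsCompact (closedBall (0 : ℂ) c) := isCompact_closedBall 0 c
  have hsub : closedBall (0 : ℂ) c ⊆ ball (0 : ℂ) 1 := closedBall_subset_ball h1
  obtain ⟨M, hM⟩ := (hK.image_of_continuousOn (hu.mono hsub).norm).bddAbove
  have hb : ∀ z ∈ ball (0 : ℂ) 1, ‖u z‖ ^ 2 ≤ t ^ 2 * ‖v z‖ ^ 2 + M ^ 2 := by
    intro z hz
    by_cases hzr : ‖z‖ ≤ c
    · have h1 : ‖u z‖ ≤ M := hM ⟨z, mem_closedBall_zero_iff.2 hzr, rfl⟩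
      have h2 : ‖u z‖ ^ 2 ≤ M ^ 2 := by
        have := norm_nonneg (u z)
        gcongr
      have h3 : 0 ≤ t ^ 2 * ‖v z‖ ^ 2 := by positivity
      linarith
    · rw [not_le] at hzr
      have h2 := h z hzr.le (mem_ball_zero_iff.1 hz)
      have h3 : ‖u z‖ ^ 2 ≤ (t * ‖v z‖) ^ 2 := by
        have := norm_nonneg (u z)
        gcongr
      rw [mul_pow] at h3
      have h4 : 0 ≤ M ^ 2 := sq_nonneg M
      linarith
  have hi : IntegrableOn (fun z => t ^ 2 * ‖v z‖ ^ 2 + M ^ 2) (ball (0 : ℂ) 1) := by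
    refine (hv.const_mul _).add ?_
    exact integrableOn_const (measure_ball_lt_top).ne
  refine Integrable.mono' hi ?_ ?_
  · exact ((hu.norm.pow 2).aestronglyMeasurable measurableSet_ball)
  · rw [ae_restrict_iff' measurableSet_ball]
    refine Eventually.of_forall fun z hz => ?_
    rw [Real.norm_eq_abs, abs_of_nonneg (by positivity)]
    exact hb z hz

/-- two analytic functions of the same modulus where `f` does not vanish are proportional -/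
theorem prop_of_norm {f g₁ g₂ : ℂ → ℂ} (hf : DifferentiableOn ℂ f (ball 0 1))
    (hg₁ : DifferentiableOn ℂ g₁ (ball 0 1)) (hg₂ : DifferentiableOn ℂ g₂ (ball 0 1))
    (nf : ∃ z ∈ ball (0 : ℂ) 1, f z ≠ 0) (n₁ : ∃ z ∈ ball (0 : ℂ) 1, g₁ z ≠ 0)
    (h : ∀ z ∈ ball (0 : ℂ) 1, ‖f z‖ * ‖g₁ z‖ = ‖f z‖ * ‖g₂ z‖) :
    ∃ κ : ℂ, ‖κ‖ = 1 ∧ ∀ z ∈ ball (0 : ℂ) 1, g₂ z = κ * g₁ z := by
  have h0b : (0 : ℂ) ∈ ball (0 : ℂ) 1 := by simp
  have hev : ∀ᶠ y in 𝓝[≠] (0 : ℂ), f y ≠ 0 ∧ g₁ y ≠ 0 ∧ y ∈ ball (0 : ℂ) 1 := by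
    filter_upwards [iso_zeros hf nf h0b, iso_zeros hg₁ n₁ h0b,
      eventually_nhdsWithin_of_eventually_nhds (isOpen_ball.mem_nhds h0b)] with y h1 h2 h3
    exact ⟨h1, h2, h3⟩
  obtain ⟨z, hfz, hgz, hz⟩ := hev.exists
  have hzn : ball (0 : ℂ) 1 ∈ 𝓝 z := isOpen_ball.mem_nhds hz
  have df := hf.differentiableAt hzn
  have d1 := hg₁.differentiableAt hzn
  have near : ∀ᶠ y in 𝓝 z, f y ≠ 0 ∧ g₁ y ≠ 0 ∧ y ∈ ball (0 : ℂ) 1 := by
    filter_upwards [df.continuousAt.eventually_ne hfz, d1.continuousAt.eventually_ne hgz,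
      hzn] with y h1 h2 h3
    exact ⟨h1, h2, h3⟩
  have hq1 : ∀ y : ℂ, f y ≠ 0 → g₁ y ≠ 0 → y ∈ ball (0 : ℂ) 1 → ‖g₂ y / g₁ y‖ = 1 := by
    intro y h1 h2 h3
    have h4 := mul_left_cancel₀ (norm_ne_zero_iff.2 h1) (h y h3)
    rw [norm_div, ← h4, div_self (norm_ne_zero_iff.2 h2)]
  have hd : ∀ᶠ y in 𝓝 z, DifferentiableAt ℂ (fun y => g₂ y / g₁ y) y := by
    filter_upwards [near] with y hy
    exact (hg₂.differentiableAt (isOpen_ball.mem_nhds hy.2.2)).div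
      (hg₁.differentiableAt (isOpen_ball.mem_nhds hy.2.2)) hy.2.1
  have hmax : IsLocalMax (norm ∘ fun y => g₂ y / g₁ y) z := by
    filter_upwards [near] with y hy
    show ‖g₂ y / g₁ y‖ ≤ ‖g₂ z / g₁ z‖
    rw [hq1 y hy.1 hy.2.1 hy.2.2, hq1 z hfz hgz hz]
  have hconst := Complex.eventually_eq_of_isLocalMax_norm hd hmax
  refine ⟨g₂ z / g₁ z, hq1 z hfz hgz hz, ?_⟩
  have heq : g₂ =ᶠ[𝓝 z] fun y => g₂ z / g₁ z * g₁ y := by
    filter_upwards [hconst, near] with y h1 h2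
    rw [← h1, div_mul_cancel₀ _ h2.2.1]
  exact fun y hy => (hg₂.analyticOnNhd isOpen_ball).eqOn_of_preconnected_of_eventuallyEq
    ((hg₁.const_mul _).analyticOnNhd isOpen_ball) (convex_ball (0 : ℂ) 1).isPreconnected hz heq hy

theorem bad_core {c : ℝ} (h0 : 0 < c) (h1 : c < 1) {f g₁ g₂ u v : ℂ → ℂ}
    (E₁ : Ext c f g₁) (E₂ : Ext c f g₂) (hu : DifferentiableOn ℂ u (ball 0 1))
    (hv : DifferentiableOn ℂ v (ball 0 1))
    (hug : ∀ z ∈ ball (0 : ℂ) 1, u z * g₁ z = f z * g₂ z)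
    (hvg : ∀ z ∈ ball (0 : ℂ) 1, v z * g₂ z = f z * g₁ z) :
    ∃ κ : ℂ, ‖κ‖ = 1 ∧ ∀ z ∈ ball (0 : ℂ) 1, g₂ z = κ * g₁ z := by
  have hF : 0 < KF c := kf_pos' h0 h1
  have nf := ne_of_sph E₁.1
  have n₁ := ne_of_sph E₁.2.1
  have n₂ := ne_of_sph E₂.2.1
  have hf := E₁.1.1
  have hg₁ := E₁.2.1.1
  have hg₂ := E₂.2.1.1
  have Du : Dom c (KF c) u g₂ := dom_quot h0 hg₁ n₁ hu hg₂ E₁.2.2 hug
  have Dv : Dom c (KF c) v g₁ := dom_quot h0 hg₂ n₂ hv hg₁ E₂.2.2 hvg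
  have ui := int_of_dom h1 hu.continuousOn E₂.2.1.2.1 Du
  have vi := int_of_dom h1 hv.continuousOn E₁.2.1.2.1 Dv
  have s1 : sq f 1 = 1 := E₁.1.2.2
  have s2 : sq g₁ 1 = 1 := E₁.2.1.2.2
  have s3 : sq g₂ 1 = 1 := E₂.2.1.2.2
  have su : sq u 1 ≤ 1 := by
    have h2 := dom_norm h0 h1 hF.le hu ui hg₂ E₂.2.1.2.1 Du
    rw [s3] at h2
    exact le_of_mul_le_mul_left h2 (by positivity)
  have sv : sq v 1 ≤ 1 := by
    have h2 := dom_norm h0 h1 hF.le hv vi hg₁ E₁.2.1.2.1 Dv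
    rw [s2] at h2
    exact le_of_mul_le_mul_left h2 (by positivity)
  -- the product
  have huv : ∀ z ∈ ball (0 : ℂ) 1, u z * v z = f z ^ 2 := by
    intro z hz
    have hzn : ball (0 : ℂ) 1 ∈ 𝓝 z := isOpen_ball.mem_nhds hz
    have hev : (fun y => u y * v y) =ᶠ[𝓝[≠] z] fun y => f y ^ 2 := by
      filter_upwards [iso_zeros hg₁ n₁ hz, iso_zeros hg₂ n₂ hz,
        eventually_nhdsWithin_of_eventually_nhds hzn] with y a1 a2 a3
      have a4 := hug y a3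
      have a5 := hvg y a3
      have a6 : (u y * v y) * (g₁ y * g₂ y) = f y ^ 2 * (g₁ y * g₂ y) := by
        calc (u y * v y) * (g₁ y * g₂ y) = (u y * g₁ y) * (v y * g₂ y) := by ring
          _ = _ := by
            rw [a4, a5]
            ring
      exact mul_right_cancel₀ (mul_ne_zero a1 a2) a6
    have t1 : Tendsto (fun y => u y * v y) (𝓝[≠] z) (𝓝 (u z * v z)) :=
      (((hu.continuousOn.continuousAt hzn).mul
        (hv.continuousOn.continuousAt hzn)).tendsto).mono_left nhdsWithin_le_nhds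
    have t2 : Tendsto (fun y => f y ^ 2) (𝓝[≠] z) (𝓝 (f z ^ 2)) :=
      (((hf.continuousOn.continuousAt hzn).pow 2).tendsto).mono_left nhdsWithin_le_nhds
    exact tendsto_nhds_unique (t1.congr' hev) t2
  have hnn : ∀ z ∈ ball (0 : ℂ) 1, ‖u z‖ * ‖v z‖ = ‖f z‖ ^ 2 := by
    intro z hz
    rw [← norm_mul, huv z hz, norm_pow]
  -- the arithmetic and the geometric mean
  have i1 : IntegrableOn (fun z => ‖u z‖ ^ 2 + ‖v z‖ ^ 2) (ball (0 : ℂ) 1) := ui.add vi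
  have i2 : IntegrableOn (fun z => 2 * ‖f z‖ ^ 2) (ball (0 : ℂ) 1) := E₁.1.2.1.const_mul 2
  have hint : ∫ z in ball (0 : ℂ) 1, (‖u z‖ - ‖v z‖) ^ 2 ≤ 0 := by
    have e : ∫ z in ball (0 : ℂ) 1, (‖u z‖ - ‖v z‖) ^ 2 =
        ∫ z in ball (0 : ℂ) 1, (‖u z‖ ^ 2 + ‖v z‖ ^ 2 - 2 * ‖f z‖ ^ 2) := by
      refine setIntegral_congr_fun measurableSet_ball fun z hz => ?_
      show (‖u z‖ - ‖v z‖) ^ 2 = ‖u z‖ ^ 2 + ‖v z‖ ^ 2 - 2 * ‖f z‖ ^ 2
      rw [← hnn z hz]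
      ring
    have e2 : ∫ z in ball (0 : ℂ) 1, (‖u z‖ ^ 2 + ‖v z‖ ^ 2 - 2 * ‖f z‖ ^ 2) =
        (∫ z in ball (0 : ℂ) 1, (‖u z‖ ^ 2 + ‖v z‖ ^ 2)) -
          ∫ z in ball (0 : ℂ) 1, 2 * ‖f z‖ ^ 2 := integral_sub i1 i2
    have e3 : ∫ z in ball (0 : ℂ) 1, (‖u z‖ ^ 2 + ‖v z‖ ^ 2) =
        (∫ z in ball (0 : ℂ) 1, ‖u z‖ ^ 2) + ∫ z in ball (0 : ℂ) 1, ‖v z‖ ^ 2 :=
      integral_add ui vi
    rw [e, e2, e3, integral_const_mul]
    have hpi : (0 : ℝ) < Real.pi⁻¹ := inv_pos.2 Real.pi_pos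
    unfold Pool.Agent.Helper23.KB.sq at su sv s1
    have h2 : Real.pi⁻¹ * ((∫ z in ball (0 : ℂ) 1, ‖u z‖ ^ 2) +
        (∫ z in ball (0 : ℂ) 1, ‖v z‖ ^ 2) - 2 * ∫ z in ball (0 : ℂ) 1, ‖f z‖ ^ 2) ≤ 0 := by
      rw [mul_sub, mul_add]
      linarith
    by_contra hcon
    rw [not_le] at hcon
    have := mul_pos hpi hcon
    linarith
  have hcont : ContinuousOn (fun z => (‖u z‖ - ‖v z‖) ^ 2) (ball (0 : ℂ) 1) :=
    (hu.continuousOn.norm.sub hv.continuousOn.norm).pow 2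
  have hi : IntegrableOn (fun z => (‖u z‖ - ‖v z‖) ^ 2) (ball (0 : ℂ) 1) := by
    refine Integrable.mono' i1 (hcont.aestronglyMeasurable measurableSet_ball) ?_
    refine Eventually.of_forall fun z => ?_
    rw [Real.norm_eq_abs, abs_of_nonneg (sq_nonneg _)]
    show (‖u z‖ - ‖v z‖) ^ 2 ≤ ‖u z‖ ^ 2 + ‖v z‖ ^ 2
    nlinarith [norm_nonneg (u z), norm_nonneg (v z), mul_nonneg (norm_nonneg (u z))
      (norm_nonneg (v z))]
  have hzero : ∫ z in ball (0 : ℂ) 1, (‖u z‖ - ‖v z‖) ^ 2 = 0 :=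
    le_antisymm hint (integral_nonneg fun z => sq_nonneg _)
  have hae := (setIntegral_eq_zero_iff_of_nonneg_ae
    (Eventually.of_forall fun z => sq_nonneg _) hi).1 hzero
  have heq := Measure.eqOn_open_of_ae_eq hae isOpen_ball hcont continuousOn_const
  refine prop_of_norm hf hg₁ hg₂ nf n₁ fun z hz => ?_
  have h2 : ‖u z‖ = ‖v z‖ := by
    have h3 : (‖u z‖ - ‖v z‖) ^ 2 = 0 := heq hz
    have h4 := pow_eq_zero_iff (two_ne_zero) |>.1 h3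
    linarith
  have h3 : ‖u z‖ = ‖f z‖ := by
    have h4 := hnn z hz
    rw [← h2, ← pow_two] at h4
    exact (pow_left_inj₀ (norm_nonneg _) (norm_nonneg _) two_ne_zero).1 h4
  calc ‖f z‖ * ‖g₁ z‖ = ‖u z‖ * ‖g₁ z‖ := by rw [h3]
    _ = ‖f z‖ * ‖g₂ z‖ := by rw [← norm_mul, hug z hz, norm_mul]

end Pool.Agent.Helper23.KU
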