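import Mathlib
import Pool.Agent.Helper23.KU.ZDefs
import Pool.Agent.Helper98.KU.Blaschke

/-!
# KR, piece H: the case of full contact
-/

set_option autoImplicit false

namespace Pool.Agent.Helper75.KR

open Polynomial Filter Topology Metric Set
open Pool.Agent.Helper23.KU

theorem rat_full {c : ℝ} (h0 : 0 < c) (h1 : c < 1) {N : ℂ → ℂ} {s : Multiset ℂ}
    (hs : ∀ a ∈ s, ‖a‖ < c) (hN : DifferentiableOn ℂ N (ball 0 1))
    (hu : ∀ z : ℂ, ‖z‖ = c → ‖N z‖ = ‖mm s z‖) :
    ∃ p q : ℂ[X], q ≠ 0 ∧ ∀ z ∈ ball (0 : ℂ) 1, q.eval z * N z = p.eval z := by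
  have hc0 : (c : ℂ) ≠ 0 := by exact_mod_cast h0.ne'
  obtain ⟨D, hD⟩ : ∃ D : ℂ → ℂ, D = fun ζ => (s.map fun a => (c : ℂ) - (starRingEnd ℂ) a * ζ).prod :=
    ⟨_, rfl⟩
  have hDd : Differentiable ℂ D := by
    rw [hD]
    clear hu hs hD
    induction s using Multiset.induction_on with
    | empty => simp
    | cons a s ih =>
      simp only [Multiset.map_cons, Multiset.prod_cons]
      fun_prop
  have hD0 : ∀ ζ : ℂ, ‖ζ‖ ≤ 1 → D ζ ≠ 0 := by
    intro ζ hζ h
    rw [hD] at h
    rw [Multiset.prod_eq_zero_iff, Multiset.mem_map] at h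
    obtain ⟨a, ha, h2⟩ := h
    have h3 : (c : ℂ) = (starRingEnd ℂ) a * ζ := sub_eq_zero.1 h2
    have h4 := congrArg norm h3
    rw [norm_mul, Complex.norm_conj, Complex.norm_real, Real.norm_of_nonneg h0.le] at h4
    have h5 := hs a ha
    nlinarith [norm_nonneg a, norm_nonneg ζ]
  -- moduli on the circle
  have hmod : ∀ ζ : ℂ, ‖ζ‖ = 1 → ‖mm s (c * ζ)‖ = ‖D ζ‖ := by
    intro ζ hζ
    rw [hD]
    unfold mm
    have key : ∀ a : ℂ, ‖(c : ℂ) * ζ - a‖ = ‖(c : ℂ) - (starRingEnd ℂ) a * ζ‖ := by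
      intro a
      have e1 : (c : ℂ) * ζ - a = ζ * (c - a * (starRingEnd ℂ) ζ) := by
        have e2 : ζ * (starRingEnd ℂ) ζ = 1 := by
          rw [Complex.mul_conj, Complex.normSq_eq_norm_sq, hζ]
          simp
        linear_combination a * e2
      have e3 : (c : ℂ) - a * (starRingEnd ℂ) ζ =
          (starRingEnd ℂ) ((c : ℂ) - (starRingEnd ℂ) a * ζ) := by
        simp
      rw [e1, norm_mul, hζ, one_mul, e3, Complex.norm_conj]
    clear hu hs hD hD0 hDd
    induction s using Multiset.induction_on with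
    | empty => simp
    | cons a s ih =>
      simp only [Multiset.map_cons, Multiset.prod_cons, norm_mul]
      rw [ih, key a]
  have hmap : ∀ ζ : ℂ, ‖ζ‖ ≤ 1 → (c : ℂ) * ζ ∈ ball (0 : ℂ) 1 := by
    intro ζ hζ
    rw [mem_ball_zero_iff, norm_mul, Complex.norm_real, Real.norm_of_nonneg h0.le]
    nlinarith [norm_nonneg ζ]
  have hdiff : ∀ ζ : ℂ, ‖ζ‖ ≤ 1 → DifferentiableAt ℂ (fun ζ => N (c * ζ) / D ζ) ζ := by
    intro ζ hζ
    have h2 : DifferentiableAt ℂ N (c * ζ) :=
      hN.differentiableAt (isOpen_ball.mem_nhds (hmap ζ hζ))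
    have h3 : DifferentiableAt ℂ (fun ζ : ℂ => (c : ℂ) * ζ) ζ := by fun_prop
    exact (h2.comp ζ h3).div hDd.differentiableAt (hD0 ζ hζ)
  obtain ⟨w, κ, hw, hb⟩ := blaschke (χ := fun ζ => N (c * ζ) / D ζ) one_pos
    (fun ζ hζ => (hdiff ζ (by simpa using hζ)).continuousAt.continuousWithinAt)
    (fun ζ hζ => (hdiff ζ (by
      have := mem_ball_zero_iff.1 hζ
      exact this.le)).differentiableWithinAt)
    (fun ζ hζ => by
      show ‖N (c * ζ) / D ζ‖ = 1
      have e1 : ‖(c : ℂ) * ζ‖ = c := by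
        rw [norm_mul, hζ, mul_one, Complex.norm_real, Real.norm_of_nonneg h0.le]
      rw [norm_div, hu _ e1, hmod ζ hζ, div_self]
      exact norm_ne_zero_iff.2 (hD0 ζ hζ.le))
  -- the polynomials
  obtain ⟨q, hq⟩ : ∃ q : ℂ[X], q = (w.map fun b => 1 - C ((starRingEnd ℂ) b / c) * X).prod :=
    ⟨_, rfl⟩
  obtain ⟨p, hp⟩ : ∃ p : ℂ[X], p = C κ * (w.map fun b => C (1 / (c : ℂ)) * X - C b).prod *
      (s.map fun a => C (c : ℂ) - C ((starRingEnd ℂ) a / c) * X).prod := ⟨_, rfl⟩
  have hqe : ∀ ζ : ℂ, q.eval (c * ζ) = (w.map fun b => 1 - (starRingEnd ℂ) b * ζ).prod := by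
    intro ζ
    rw [hq, eval_multiset_prod, Multiset.map_map]
    congr 1
    refine Multiset.map_congr rfl fun b _ => ?_
    simp only [Function.comp_apply, eval_sub, eval_one, eval_mul, eval_C, eval_X]
    field_simp
  have hpe : ∀ ζ : ℂ, p.eval (c * ζ) = κ * (w.map fun b => ζ - b).prod * D ζ := by
    intro ζ
    rw [hp, eval_mul, eval_mul, eval_C, eval_multiset_prod, eval_multiset_prod,
      Multiset.map_map, Multiset.map_map, hD]
    congr 1
    · congr 1
      congr 1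
      refine Multiset.map_congr rfl fun b _ => ?_
      simp only [Function.comp_apply, eval_sub, eval_mul, eval_C, eval_X]
      field_simp
    · congr 1
      refine Multiset.map_congr rfl fun a _ => ?_
      simp only [Function.comp_apply, eval_sub, eval_mul, eval_C, eval_X]
      field_simp
  have hq0 : q ≠ 0 := by
    intro h
    have h2 := hqe 0
    rw [h] at h2
    simp at h2
  refine ⟨p, q, hq0, ?_⟩
  have hloc : ∀ z ∈ ball (0 : ℂ) c, q.eval z * N z = p.eval z := by
    intro z hz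
    have hz' : ‖z‖ < c := mem_ball_zero_iff.1 hz
    have e1 : (c : ℂ) * (z / c) = z := by field_simp
    have e2 : ‖z / (c : ℂ)‖ < 1 := by
      rw [norm_div, Complex.norm_real, Real.norm_of_nonneg h0.le, div_lt_one h0]
      exact hz'
    have e3 := hb (z / c) (mem_ball_zero_iff.2 e2)
    simp only [e1] at e3
    have e4 := hqe (z / c)
    have e5 := hpe (z / c)
    rw [e1] at e4 e5
    rw [e4, e5, ← e3]
    have e6 := hD0 (z / c) e2.le
    generalize (w.map fun b => 1 - (starRingEnd ℂ) b * (z / c)).prod = W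
    generalize D (z / c) = D' at e6 ⊢
    field_simp
  have hA1 : AnalyticOnNhd ℂ (fun z => q.eval z * N z) (ball (0 : ℂ) 1) :=
    ((q.differentiable.differentiableOn).mul hN).analyticOnNhd isOpen_ball
  have hA2 : AnalyticOnNhd ℂ (fun z => p.eval z) (ball (0 : ℂ) 1) :=
    (p.differentiable.differentiableOn).analyticOnNhd isOpen_ball
  have hev : (fun z => q.eval z * N z) =ᶠ[𝓝 0] fun z => p.eval z := by
    filter_upwards [ball_mem_nhds (0 : ℂ) h0] with z hz
    exact hloc z hz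
  intro z hz
  exact hA1.eqOn_of_preconnected_of_eventuallyEq hA2 (convex_ball (0 : ℂ) 1).isPreconnected
    (mem_ball_self one_pos) hev hz

end Pool.Agent.Helper75.KR
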